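import Mathlib

set_option autoImplicit false

namespace Pool.Agent.H.MP_970e84_lc

open FirstOrder FirstOrder.Language Filter

variable (L : FirstOrder.Language.{0, 0}) (M : Type) [L.Structure M]

def Fraisse : Prop :=
  L.IsRelational ∧ Countable L.Symbols ∧ Countable M ∧ Infinite M ∧ L.IsUltrahomogeneous M

@[reducible] def autTop : TopologicalSpace (M ≃[L] M) :=
  TopologicalSpace.induced (fun g => (g : M → M)) (@Pi.topologicalSpace M (fun _ => M) fun _ => ⊥)

variable {L M}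

def IsType {n : ℕ} (p : Set (L.Formula (Fin n ⊕ M))) : Prop :=
  (∀ φ, φ ∈ p ∨ φ.not ∈ p) ∧
    ∀ s : Finset (L.Formula (Fin n ⊕ M)), ↑s ⊆ p → ∃ a : Fin n → M, ∀ φ ∈ s, φ.Realize (Sum.elim a id)

def act {n : ℕ} (g : M ≃[L] M) (p : Set (L.Formula (Fin n ⊕ M))) : Set (L.Formula (Fin n ⊕ M)) :=
  {φ | φ.relabel (Sum.map id g.symm) ∈ p}

def IsSubflow {n : ℕ} (X : Set (Set (L.Formula (Fin n ⊕ M)))) : Prop :=
  X.Nonempty ∧ (∀ p ∈ X, IsType p) ∧ (∀ p, IsType p → (∀ φ ∈ p, ∃ q ∈ X, φ ∈ q) → p ∈ X) ∧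
    ∀ g : M ≃[L] M, ∀ p ∈ X, act g p ∈ X

variable (L M) in
def FPT : Prop := ∀ n, 1 ≤ n → ∀ X : Set (Set (L.Formula (Fin n ⊕ M))), IsSubflow X →
  ∃ p ∈ X, ∀ g : M ≃[L] M, act g p = p

variable {n : ℕ}

lemma IsType.sat {p : Set (L.Formula (Fin n ⊕ M))} (hp : IsType p) (l : List (L.Formula (Fin n ⊕ M)))
    (h : ∀ φ ∈ l, φ ∈ p) : ∃ a : Fin n → M, ∀ φ ∈ l, φ.Realize (Sum.elim a id) := by
  classical
  obtain ⟨a, ha⟩ := hp.2 l.toFinset fun φ hφ => h φ (by simpa using hφ)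
  exact ⟨a, fun φ hφ => ha φ (by simpa using hφ)⟩

lemma IsType.mp {p : Set (L.Formula (Fin n ⊕ M))} (hp : IsType p) {φ ψ : L.Formula (Fin n ⊕ M)}
    (h : φ ∈ p) (hi : ∀ a : Fin n → M, φ.Realize (Sum.elim a id) → ψ.Realize (Sum.elim a id)) :
    ψ ∈ p := by
  refine (hp.1 ψ).resolve_right fun h2 => ?_
  obtain ⟨a, ha⟩ := hp.sat [φ, ψ.not] (by simp [h, h2])
  simp only [List.mem_cons, List.not_mem_nil, or_false, forall_eq_or_imp, forall_eq,
    Formula.realize_not] at ha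
  exact ha.2 (hi a ha.1)

lemma IsType.not_iff {p : Set (L.Formula (Fin n ⊕ M))} (hp : IsType p) {φ : L.Formula (Fin n ⊕ M)} :
    φ.not ∈ p ↔ φ ∉ p := by
  refine ⟨fun h2 h => ?_, (hp.1 φ).resolve_left⟩
  obtain ⟨a, ha⟩ := hp.sat [φ, φ.not] (by simp [h, h2])
  simp at ha

lemma R_act (g : M ≃[L] M) (φ : L.Formula (Fin n ⊕ M)) (a : Fin n → M) :
    (φ.relabel (Sum.map id g.symm)).Realize (Sum.elim a id) ↔ φ.Realize (Sum.elim (g ∘ a) id) := by
  rw [Formula.realize_relabel, ← StrongHomClass.realize_formula g]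
  apply iff_of_eq; congr 1
  funext x; cases x <;> simp

lemma IsType.act {p : Set (L.Formula (Fin n ⊕ M))} (hp : IsType p) (g : M ≃[L] M) :
    IsType (act g p) := by
  classical
  constructor
  · intro φ
    rcases hp.1 (φ.relabel (Sum.map id g.symm)) with h | h
    · exact Or.inl h
    · exact Or.inr (hp.mp h fun a ha => by
        rw [R_act, Formula.realize_not]; rwa [Formula.realize_not, R_act] at ha)
  · intro s hs
    obtain ⟨a, ha⟩ := hp.2 (s.image fun φ => φ.relabel (Sum.map id g.symm)) (by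
      intro ψ hψ
      obtain ⟨φ, hφ, rfl⟩ := Finset.mem_image.1 (Finset.mem_coe.1 hψ)
      exact hs hφ)
    exact ⟨g ∘ a, fun φ hφ => (R_act g φ a).1 (ha _ (Finset.mem_image_of_mem _ hφ))⟩

lemma isType_lim (U : Ultrafilter ℕ) {p : ℕ → Set (L.Formula (Fin n ⊕ M))} (hp : ∀ k, IsType (p k)) :
    IsType {φ | ∀ᶠ k in U, φ ∈ p k} := by
  constructor
  · intro φ
    exact Ultrafilter.eventually_or.1 (Eventually.of_forall fun k => (hp k).1 φ)
  · intro s hs
    obtain ⟨k, hk⟩ := ((eventually_all_finset s).2 fun φ hφ => hs hφ).exists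
    exact (hp k).2 s hk

lemma isType_real (a : Fin n → M) : IsType {φ : L.Formula (Fin n ⊕ M) | φ.Realize (Sum.elim a id)} :=
  ⟨fun φ => by simp [em], fun s hs => ⟨a, fun φ hφ => hs hφ⟩⟩

lemma support {α : Type} (φ : L.Formula α) : ∃ B : Finset α, ∀ v v' : α → M, (∀ x ∈ B, v x = v' x) →
    (φ.Realize v ↔ φ.Realize v') := by
  classical
  refine ⟨φ.freeVarFinset, fun v v' h => ?_⟩
  have h1 := BoundedFormula.realize_restrictFreeVar (φ := φ) (f := id) (v := fun a => v a)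
    (xs := default) v (by simp)
  have h2 := BoundedFormula.realize_restrictFreeVar (φ := φ) (f := id) (v := fun a => v a)
    (xs := default) v' (fun a => h a a.2)
  exact h1.symm.trans h2

instance : Language.empty.Structure ℕ := Language.emptyStructure

def ofPerm (σ : Equiv.Perm ℕ) : ℕ ≃[Language.empty] ℕ := { toEquiv := σ }

@[simp] lemma ofPerm_apply (σ : Equiv.Perm ℕ) (a : ℕ) : ofPerm σ a = σ a := rfl

lemma fraisse_pure : Fraisse Language.empty ℕ := by
  refine ⟨inferInstance, inferInstance, inferInstance, inferInstance, fun S hS f => ?_⟩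
  have := hS.finite
  obtain ⟨σ, hσ⟩ := Equiv.Perm.exists_extending_pair (fun x : S => (x : ℕ)) f Subtype.val_injective
    f.injective
  exact ⟨ofPerm σ, by ext x; exact (hσ x).symm⟩

def eqF (i : Fin n) (b : ℕ) : Language.empty.Formula (Fin n ⊕ ℕ) :=
  (Term.var (Sum.inl i)).equal (Term.var (Sum.inr b))

@[simp] lemma eqF_real (i : Fin n) (b : ℕ) (a : Fin n → ℕ) :
    (eqF i b).Realize (Sum.elim a id) ↔ a i = b := by simp [eqF]

lemma fixed_of_generic {q : Set (Language.empty.Formula (Fin n ⊕ ℕ))} (hq : IsType q)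
    (h : ∀ i b, eqF i b ∉ q) (g : ℕ ≃[Language.empty] ℕ) (φ : Language.empty.Formula (Fin n ⊕ ℕ))
    (hφ : φ ∈ q) : φ ∈ act g q := by
  classical
  by_contra hn
  have h2 : (φ.relabel (Sum.map id g.symm)).not ∈ q := hq.not_iff.2 hn
  obtain ⟨B, hB⟩ := support (M := ℕ) φ
  let C : Finset ℕ := B.toRight
  let D : Finset ℕ := C ∪ C.image g.symm
  obtain ⟨a, ha⟩ := hq.2 (insert φ (insert (φ.relabel (Sum.map id g.symm)).not
    ((Finset.univ ×ˢ D).image fun x : Fin n × ℕ => (eqF x.1 x.2).not))) (by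
      intro ψ hψ
      simp only [Finset.coe_insert, Finset.coe_image, Set.mem_insert_iff, Set.mem_image] at hψ
      rcases hψ with rfl | rfl | ⟨x, -, rfl⟩
      exacts [hφ, h2, hq.not_iff.2 (h _ _)])
  have a1 := ha φ (by simp)
  have a2 := ha (φ.relabel (Sum.map id g.symm)).not (by simp)
  have a3 : ∀ i, ∀ b ∈ D, a i ≠ b := fun i b hb => by
    have := ha (eqF i b).not (Finset.mem_insert_of_mem (Finset.mem_insert_of_mem
      (Finset.mem_image.2 ⟨(i, b), by simp [hb], rfl⟩)))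
    simpa using this
  rw [Formula.realize_not, Formula.realize_relabel] at a2
  apply a2
  have hfin : Finite (Set.range a) := Set.finite_range a
  obtain ⟨σ, hσ⟩ := Equiv.Perm.exists_extending_pair
    (Sum.elim (fun x : Set.range a => (x : ℕ)) (fun b : C => (b : ℕ)))
    (Sum.elim (fun x : Set.range a => (x : ℕ)) (fun b : C => g.symm b))
    (Subtype.val_injective.sumElim Subtype.val_injective (by
      rintro ⟨_, i, rfl⟩ b; exact a3 i b (Finset.mem_union_left _ b.2)))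
    (Subtype.val_injective.sumElim (g.symm.injective.comp Subtype.val_injective) (by
      rintro ⟨_, i, rfl⟩ b
      exact a3 i _ (Finset.mem_union_right _ (Finset.mem_image_of_mem _ b.2))))
  rw [← StrongHomClass.realize_formula (ofPerm σ)] at a1
  refine (hB _ _ fun x hx => ?_).1 a1
  cases x with
  | inl i => exact hσ (Sum.inl ⟨a i, i, rfl⟩)
  | inr b => exact hσ (Sum.inr ⟨b, by simpa [C] using hx⟩)

lemma fpt_pure : FPT Language.empty ℕ := by
  classical
  rintro n - X ⟨⟨p, hpX⟩, h1, h2, h3⟩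
  have hp := h1 p hpX
  have hA : {b | ∃ i, eqF i b ∈ p}.Finite := by
    rw [Set.setOf_exists]
    refine Set.finite_iUnion fun i => Set.Subsingleton.finite fun b hb c hc => ?_
    obtain ⟨a, ha⟩ := hp.sat [eqF i b, eqF i c] (by simpa using ⟨hb, hc⟩)
    simp only [List.mem_cons, List.not_mem_nil, or_false, forall_eq_or_imp, forall_eq, eqF_real] at ha
    exact ha.1.symm.trans ha.2
  have : Finite {b | ∃ i, eqF i b ∈ p} := hA
  have hg : ∀ k : ℕ, ∃ σ : Equiv.Perm ℕ, ∀ x : {b | ∃ i, eqF i b ∈ p}, σ x = x + k + 1 := fun k =>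
    Equiv.Perm.exists_extending_pair (fun x : {b | ∃ i, eqF i b ∈ p} => (x : ℕ))
      (fun x => x + k + 1) Subtype.val_injective fun x y h => Subtype.ext (by simpa using h)
  choose σ hσ using hg
  let U := hyperfilter ℕ
  have hq := isType_lim U fun k => hp.act (ofPerm (σ k))
  have hgen : ∀ i b, eqF i b ∉ {φ | ∀ᶠ k in U, φ ∈ act (ofPerm (σ k)) p} := by
    intro i b hb
    have h4 : ∀ᶠ k in U, b ≤ k := Nat.hyperfilter_le_atTop (eventually_ge_atTop b)
    obtain ⟨k, hk1, hk2⟩ := (Eventually.and hb h4).exists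
    have h5 : eqF i ((σ k).symm b) ∈ p := hp.mp hk1 fun a ha => by
      rw [R_act, eqF_real] at ha
      rw [eqF_real, ← ha]; simp
    have := hσ k ⟨_, i, h5⟩
    simp at this; omega
  refine ⟨_, h2 _ hq fun φ hφ => ?_, fun g => ?_⟩
  · obtain ⟨k, hk⟩ := Eventually.exists hφ
    exact ⟨_, h3 _ p hpX, hk⟩
  · ext φ
    refine ⟨fun h => ?_, fixed_of_generic hq hgen g φ⟩
    by_contra hn
    exact (hq.act g).not_iff.1 (fixed_of_generic hq hgen g _ (hq.not_iff.2 hn)) h

end Pool.Agent.H.MP_970e84_lc
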