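import Mathlib
import Pool.Agent.H.MP_970e84_lc.Defs

set_option autoImplicit false

namespace Pool.Agent.H.MP_970e84_lc

open FirstOrder FirstOrder.Language Filter

inductive Rl : ℕ → Type
  | c (i j : ℕ) : Rl 2
  | r : Rl 3

def lang : FirstOrder.Language.{0, 0} := ⟨fun _ => Empty, Rl⟩

def N : Type := {l : List ℕ // l.Nodup}

def Cc (i j : ℕ) (x y : N) : Prop := ∃ a, x.1[i]? = some a ∧ y.1[j]? = some a

def Rr (x y z : N) : Prop := ∃ i j, i < j ∧ Cc i 0 x y ∧ Cc j 0 x z

instance : lang.Structure N where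
  funMap f := f.elim
  RelMap R v := match R with
    | Rl.c i j => Cc i j (v 0) (v 1)
    | Rl.r => Rr (v 0) (v 1) (v 2)

instance : lang.IsRelational := fun _ => (inferInstance : IsEmpty Empty)

def mapN (σ : Equiv.Perm ℕ) (x : N) : N := ⟨x.1.map σ, x.2.map σ.injective⟩

lemma Cc_map (σ : Equiv.Perm ℕ) (i j : ℕ) (x y : N) : Cc i j (mapN σ x) (mapN σ y) ↔ Cc i j x y := by
  simp only [Cc, mapN, List.getElem?_map, Option.map_eq_some_iff]
  constructor
  · rintro ⟨_, ⟨a, h1, rfl⟩, b, h2, h3⟩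
    exact ⟨a, h1, σ.injective h3 ▸ h2⟩
  · rintro ⟨a, h1, h2⟩
    exact ⟨σ a, ⟨a, h1, rfl⟩, a, h2, rfl⟩

def autN (σ : Equiv.Perm ℕ) : N ≃[lang] N where
  toFun := mapN σ
  invFun := mapN σ.symm
  left_inv x := Subtype.ext (by simp [mapN])
  right_inv x := Subtype.ext (by simp [mapN])
  map_fun' f := f.elim
  map_rel' R v := by
    cases R with
    | c i j => exact Cc_map σ i j _ _
    | r => show Rr _ _ _ ↔ Rr _ _ _; simp only [Rr, Function.comp, Cc_map]

@[simp] lemma autN_apply (σ : Equiv.Perm ℕ) (x : N) : autN σ x = mapN σ x := rfl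

def sing (a : ℕ) : N := ⟨[a], List.nodup_singleton a⟩

lemma mapN_sing (σ : Equiv.Perm ℕ) (a : ℕ) : mapN σ (sing a) = sing (σ a) := rfl

lemma Cc_self (i : ℕ) (x : N) : Cc i i x x ↔ i < x.1.length := by
  simp only [Cc, and_self]
  exact ⟨fun ⟨a, h⟩ => (List.getElem?_eq_some_iff.1 h).1, fun h => ⟨_, List.getElem?_eq_getElem h⟩⟩

lemma len_eq {x y : N} (h : ∀ i, Cc i i y y ↔ Cc i i x x) : y.1.length = x.1.length := by
  simp only [Cc_self] at h
  exact eq_of_forall_lt_iff h

lemma emb_C {S : lang.Substructure N} (f : S ↪[lang] N) (i j : ℕ) (x y : S) :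
    Cc i j (f x) (f y) ↔ Cc i j x y := f.map_rel (Rl.c i j) ![x, y]

lemma aut_C (f : N ≃[lang] N) (i j : ℕ) (x y : N) :
    Cc i j (f x) (f y) ↔ Cc i j x y := f.map_rel (Rl.c i j) ![x, y]

lemma ultra : lang.IsUltrahomogeneous N := by
  intro S hS f
  have := hS.finite
  have hl : ∀ x : S, (f x).1.length = x.1.1.length := fun x => len_eq fun i => emb_C f i i x x
  let E : Set ℕ := {a | ∃ x : S, a ∈ x.1.1}
  have hE : E.Finite := by
    simp only [E, Set.setOf_exists]
    exact Set.finite_iUnion fun x => List.finite_toSet _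
  have : Finite E := hE
  have hex : ∀ a : E, ∃ (x : S) (i : ℕ) (b : ℕ), x.1.1[i]? = some a.1 ∧ (f x).1[i]? = some b := by
    rintro ⟨a, x, hx⟩
    obtain ⟨i, hi, rfl⟩ := List.getElem_of_mem hx
    exact ⟨x, i, _, List.getElem?_eq_getElem hi, List.getElem?_eq_getElem (hl x ▸ hi)⟩
  choose X I b h1 h2 using hex
  have hb : Function.Injective b := by
    intro a a' h
    obtain ⟨c, c1, c2⟩ := (emb_C f (I a) (I a') (X a) (X a')).1 ⟨b a, h2 a, h ▸ h2 a'⟩
    rw [h1] at c1 c2
    exact Subtype.ext ((Option.some.inj c1).trans (Option.some.inj c2).symm)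
  obtain ⟨σ, hσ⟩ := Equiv.Perm.exists_extending_pair (fun a : E => (a : ℕ)) b Subtype.val_injective hb
  refine ⟨autN σ, ?_⟩
  ext x
  show f x = mapN σ x
  refine Subtype.ext (List.ext_getElem (by simp [mapN, hl]) fun i i1 i2 => ?_)
  have hi : i < x.1.1.length := hl x ▸ i1
  let a : E := ⟨x.1.1[i], x, List.getElem_mem hi⟩
  obtain ⟨c, c1, c2⟩ := (emb_C f i (I a) x (X a)).2 ⟨a.1, List.getElem?_eq_getElem hi, h1 a⟩
  rw [h2] at c2
  rw [List.getElem?_eq_getElem i1] at c1
  simp only [mapN, List.getElem_map]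
  exact (Option.some.inj c1).trans ((Option.some.inj c2).symm.trans (hσ a).symm)

lemma fraisse_N : Fraisse lang N := by
  refine ⟨inferInstance, ?_, (inferInstance : Countable {l : List ℕ // l.Nodup}),
    Infinite.of_injective sing fun a b h => by simpa [sing] using congrArg Subtype.val h, ultra⟩
  have h1 : Countable (Σ n, lang.Functions n) := (inferInstance : Countable (Σ _ : ℕ, Empty))
  have h2 : Countable (Σ n, Rl n) :=
    Function.Surjective.countable (f := fun o : Option (ℕ × ℕ) => match o with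
      | none => (⟨3, Rl.r⟩ : Σ n, Rl n)
      | some p => ⟨2, Rl.c p.1 p.2⟩) (by
      rintro ⟨n, R⟩
      cases R with
      | c i j => exact ⟨some (i, j), rfl⟩
      | r => exact ⟨none, rfl⟩)
  exact @instCountableSum _ _ h1 h2

lemma aut_eq (g : N ≃[lang] N) : ∃ σ, g = autN σ := by
  have hl : ∀ x, (g x).1.length = x.1.length := fun x => len_eq fun i => aut_C g i i x x
  have h1 : ∀ a, ∃ b, g (sing a) = sing b := fun a => by
    obtain ⟨b, hb⟩ := List.length_eq_one_iff.1 (hl (sing a))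
    exact ⟨b, Subtype.ext hb⟩
  choose τ hτ using h1
  have hs : ∀ a b, sing a = sing b → a = b := fun a b h => by simpa [sing] using congrArg Subtype.val h
  have hb : Function.Bijective τ := by
    refine ⟨fun a a' h => hs _ _ (g.injective (by rw [hτ, hτ, h])), fun b => ?_⟩
    obtain ⟨x, hx⟩ := g.surjective (sing b)
    obtain ⟨a, ha⟩ := List.length_eq_one_iff.1 (show x.1.length = 1 by rw [← hl, hx]; rfl)
    have : x = sing a := Subtype.ext ha
    exact ⟨a, hs _ _ (by rw [← hτ, ← this, hx])⟩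
  refine ⟨Equiv.ofBijective τ hb, ?_⟩
  ext x
  show g x = mapN _ x
  refine Subtype.ext (List.ext_getElem (by simp [mapN, hl]) fun i i1 i2 => ?_)
  have hi : i < x.1.length := hl x ▸ i1
  obtain ⟨c, c1, c2⟩ := (aut_C g i 0 x (sing x.1[i])).2 ⟨_, List.getElem?_eq_getElem hi, rfl⟩
  rw [hτ] at c2
  rw [List.getElem?_eq_getElem i1] at c1
  simp only [mapN, List.getElem_map]
  exact (Option.some.inj c1).trans (Option.some.inj c2).symm

noncomputable def iso : (ℕ ≃[Language.empty] ℕ) ≃ (N ≃[lang] N) :=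
  Equiv.ofBijective (fun g => autN g.toEquiv) ⟨fun g h e => by
    ext a
    have : sing (g a) = sing (h a) := DFunLike.congr_fun e (sing a)
    simpa [sing] using congrArg Subtype.val this, fun g => by
    obtain ⟨σ, rfl⟩ := aut_eq g
    exact ⟨ofPerm σ, rfl⟩⟩

lemma iso_apply (g : ℕ ≃[Language.empty] ℕ) (x : N) : (iso g x).1 = x.1.map g := rfl

lemma iso_comp (g h : ℕ ≃[Language.empty] ℕ) : iso (g.comp h) = (iso g).comp (iso h) := by
  ext x
  exact Subtype.ext (by simp [iso_apply])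

lemma ev_eq {L : FirstOrder.Language.{0, 0}} {M : Type} [L.Structure M] (g : M ≃[L] M) (a : M) :
    ∀ᶠ h in @nhds _ (autTop L M) g, h a = g a := by
  let : TopologicalSpace M := ⊥
  have : DiscreteTopology M := ⟨rfl⟩
  let := autTop L M
  have hc : Continuous fun h : M ≃[L] M => h a :=
    (continuous_apply a).comp (continuous_induced_dom (f := fun g : M ≃[L] M => (g : M → M)))
  exact hc.continuousAt.eventually (by simp : ∀ᶠ y in nhds (g a), y = g a)

lemma cont_of {L L' : FirstOrder.Language.{0, 0}} {M M' : Type} [L.Structure M] [L'.Structure M']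
    (e : (M ≃[L] M) → (M' ≃[L'] M'))
    (h : ∀ g x, ∀ᶠ k in @nhds _ (autTop L M) g, e k x = e g x) :
    @Continuous _ _ (autTop L M) (autTop L' M') e := by
  let : TopologicalSpace M' := ⊥
  let := autTop L M
  refine continuous_induced_rng.2 (continuous_pi fun x => continuous_iff_continuousAt.2 fun g => ?_)
  exact tendsto_const_nhds.congr' ((h g x).mono fun k hk => hk.symm)

lemma cont1 : @Continuous _ _ (autTop _ ℕ) (autTop _ N) iso := cont_of _ fun g x => by
  filter_upwards [(eventually_all_finset x.1.toFinset).2 fun a _ => ev_eq g a] with k hk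
  exact Subtype.ext (List.map_congr_left fun a ha => hk a (by simpa using ha))

lemma cont2 : @Continuous _ _ (autTop _ N) (autTop _ ℕ) iso.symm := cont_of _ fun g a => by
  filter_upwards [ev_eq g (sing a)] with k hk
  obtain ⟨g, rfl⟩ := iso.surjective g
  obtain ⟨k, rfl⟩ := iso.surjective k
  have := congrArg Subtype.val hk
  simpa [iso_apply, sing] using this

def rF (a b : ℕ) : lang.Formula (Fin 1 ⊕ N) :=
  Relations.formula (L := lang) Rl.r
    ![Term.var (Sum.inl 0), Term.var (Sum.inr (sing a)), Term.var (Sum.inr (sing b))]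

lemma rF_real (a b : ℕ) (x : Fin 1 → N) :
    (rF a b).Realize (Sum.elim x id) ↔ ∃ i j : ℕ, i < j ∧ (x 0).1[i]? = some a ∧ (x 0).1[j]? = some b := by
  rw [rF, Formula.realize_rel]
  show Rr (x 0) (sing a) (sing b) ↔ _
  simp [Rr, Cc, sing]

lemma rF_map (σ : Equiv.Perm ℕ) (a b : ℕ) (x : Fin 1 → N) :
    (rF (σ a) (σ b)).Realize (Sum.elim (autN σ ∘ x) id) ↔ (rF a b).Realize (Sum.elim x id) := by
  simp [rF_real, mapN]

theorem not_fpt : ¬ FPT lang N := by
  intro h
  obtain ⟨p, ⟨hp, hX⟩, hfix⟩ := h 1 le_rfl {p | IsType p ∧ ∀ a b, a ≠ b → rF a b ⊔ rF b a ∈ p} (by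
    refine ⟨⟨_, isType_lim (hyperfilter ℕ) fun k => isType_real (M := N)
      (fun _ => ⟨List.range k, List.nodup_range⟩), fun a b hab => ?_⟩, fun p hp => hp.1,
      fun p hp h => ⟨hp, fun a b hab => ?_⟩, fun g p hp => ⟨hp.1.act g, fun a b hab => ?_⟩⟩
    · refine Nat.hyperfilter_le_atTop ((eventually_gt_atTop (max a b)).mono fun k hk => ?_)
      have ha : a < k := lt_of_le_of_lt (le_max_left _ _) hk
      have hb : b < k := lt_of_le_of_lt (le_max_right _ _) hk
      simp only [Set.mem_setOf_eq, Formula.realize_sup, rF_real]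
      rcases lt_or_gt_of_ne hab with h | h
      · exact Or.inl ⟨a, b, h, by simp [ha], by simp [hb]⟩
      · exact Or.inr ⟨b, a, h, by simp [hb], by simp [ha]⟩
    · by_contra hn
      obtain ⟨q, hq, h2⟩ := h _ (hp.not_iff.2 hn)
      exact hq.1.not_iff.1 h2 (hq.2 a b hab)
    · obtain ⟨σ, rfl⟩ := aut_eq g
      obtain ⟨a, rfl⟩ := σ.surjective a
      obtain ⟨b, rfl⟩ := σ.surjective b
      refine hp.1.mp (hp.2 a b fun e => hab (by rw [e])) fun x hx => ?_
      rw [R_act]
      simpa only [Formula.realize_sup, rF_map] using hx)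
  have key : ∀ a b, rF a b ∈ p → rF b a ∈ p := by
    intro a b hab
    rw [← hfix (autN (Equiv.swap a b))]
    refine hp.mp hab fun x hx => ?_
    rw [R_act]
    have := (rF_map (Equiv.swap a b) a b x).2 hx
    simpa using this
  have both : rF 0 1 ∈ p ∧ rF 1 0 ∈ p := by
    by_cases h1 : rF 0 1 ∈ p
    · exact ⟨h1, key _ _ h1⟩
    · have h2 : rF 1 0 ∉ p := fun h => h1 (key _ _ h)
      obtain ⟨x, hx⟩ := hp.sat [rF 0 1 ⊔ rF 1 0, (rF 0 1).not, (rF 1 0).not] (by
        simp [hX 0 1 (by decide), hp.not_iff, h1, h2])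
      simp only [List.mem_cons, List.not_mem_nil, or_false, forall_eq_or_imp, forall_eq,
        Formula.realize_sup, Formula.realize_not] at hx
      tauto
  obtain ⟨x, hx⟩ := hp.sat [rF 0 1, rF 1 0] (by simpa using both)
  simp only [List.mem_cons, List.not_mem_nil, or_false, forall_eq_or_imp, forall_eq, rF_real] at hx
  obtain ⟨⟨i, j, hij, h1, h2⟩, i', j', hij', h3, h4⟩ := hx
  have e1 := (List.getElem?_inj (List.getElem?_eq_some_iff.1 h1).1 (x 0).2).1 (h1.trans h4.symm)
  have e2 := (List.getElem?_inj (List.getElem?_eq_some_iff.1 h2).1 (x 0).2).1 (h2.trans h3.symm)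
  omega

end Pool.Agent.H.MP_970e84_lc
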